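import Mathlib
import Pool.Agent.H96.Cond.Defs
import Pool.Agent.H96.Cond.Setting
import Pool.Agent.H96.Cond.Main

/-!
# The shape of the condensation wave in reinforced branching processes

The mass of the window `(1 - x/t, 1)` converges in probability to `ω(β,γ)` times the distribution
function of the Gamma law with shape `α` and rate `γ`; the posed profile (Gamma law with shape
`1 + α` and scale `1`) is wrong.
-/

set_option autoImplicit false

open MeasureTheory ProbabilityTheory Filter Topology
open scoped ENNReal

namespace Pool.Agent.Results.MP_385430_pr.CondensationWave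

open Pool.Agent.H96.Cond

/-- **Main theorem.** For all admissible parameters the population is almost surely finite and
nonempty at each time, the mass of the window `(1 - x/t, 1)` converges in probability to
`ω(β,γ)` times the distribution function at `x` of the Gamma law with shape `α` and rate `γ`, for
every `x > 0`; the posed limit is wrong for all `x ≤ α γ ^ α`, for all `x` when `γ = 1`, and for
all but one `x` when `γ < 1`. Admissible parameters exist. -/
theorem result :
    (∀ (μ : Measure ℝ) (β γ α : ℝ), Admissible μ β γ α →
      (∀ t : ℝ, 0 ≤ t → ∀ᵐ ω ∂(popLaw μ β γ), 1 ≤ mass ω t Set.univ ∧ mass ω t Set.univ ≠ ⊤) ∧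
      (∀ x : ℝ, 0 < x → WindowLimit μ β γ x (omega μ β γ * trueProfile γ α x)) ∧
      (∀ x : ℝ, 0 < x → (x ≤ α * γ ^ α ∨ γ = 1) →
        ¬ WindowLimit μ β γ x (omega μ β γ * posedProfile α x)) ∧
      (γ < 1 → ∃! x : ℝ, 0 < x ∧ WindowLimit μ β γ x (omega μ β γ * posedProfile α x))) ∧
    ∃ (μ : Measure ℝ) (β γ α : ℝ), Admissible μ β γ α :=
  Pool.Agent.H96.Cond.main

end Pool.Agent.Results.MP_385430_pr.CondensationWave
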